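import Mathlib

/-!
# Almost preserved extreme points at zero in `ℓ₁`-sums: the exact criterion (MP_c12391_an)

For an arbitrary family of nonzero normed spaces, `0` is an almost preserved extreme point of the
unit ball of the `ℓ₁`-sum if and only if for any finitely many uniformly bounded families of
functionals some slice of the unit ball of some summand is almost annihilated by them.
-/

set_option autoImplicit false

namespace Pool.Agent.Results.MP_c12391_an.ExactCriterion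

open Set Filter Topology
open scoped ENNReal

universe u v

/-- The slice `S(C, f, α) = {x ∈ C : f(x) > sup f(C) - α}`. -/
def slice {X : Type*} [NormedAddCommGroup X] [NormedSpace ℝ X] (C : Set X)
    (f : StrongDual ℝ X) (α : ℝ) : Set X :=
  {x | x ∈ C ∧ sSup (f '' C) - α < f x}

/-- `x₀` is an almost preserved extreme point of `C`: `x₀ ∈ C` and every relatively weakly open
subset `W` of `C` containing `x₀` contains a nonempty slice of `C`. -/
def IsAPEP {X : Type*} [NormedAddCommGroup X] [NormedSpace ℝ X] (C : Set X) (x₀ : X) : Prop :=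
  x₀ ∈ C ∧ ∀ W : Set X, (∃ O : Set (WeakSpace ℝ X), IsOpen O ∧ W = C ∩ toWeakSpace ℝ X ⁻¹' O) →
    x₀ ∈ W → ∃ (f : StrongDual ℝ X) (α : ℝ), 0 < α ∧ (slice C f α).Nonempty ∧ slice C f α ⊆ W

/-- The criterion: for all `n` and any `n` uniformly bounded families `(f k i)_i` of functionals
there are an index `i` and a nonempty slice of the unit ball of `E i` on which
`|f 1 i|, …, |f n i| < 1`. -/
def Criterion {I : Type*} (E : I → Type*) [∀ i, NormedAddCommGroup (E i)]
    [∀ i, NormedSpace ℝ (E i)] : Prop :=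
  ∀ (n : ℕ) (f : Fin n → ∀ i, StrongDual ℝ (E i)), (∃ C : ℝ, ∀ k i, ‖f k i‖ ≤ C) →
    ∃ (i : I) (g : StrongDual ℝ (E i)) (α : ℝ), 0 < α ∧
      (slice (Metric.closedBall (0 : E i) 1) g α).Nonempty ∧
      ∀ x ∈ slice (Metric.closedBall (0 : E i) 1) g α, ∀ k, |f k i x| < 1

section weak

variable {𝕜 X : Type*} [RCLike 𝕜] [NormedAddCommGroup X] [NormedSpace 𝕜 X]

/-- Every weakly open set containing `x` contains a basic weak neighbourhood of `x`. -/
lemma exists_basic (O : Set (WeakSpace 𝕜 X)) (hO : IsOpen O) (x : X)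
    (hx : toWeakSpace 𝕜 X x ∈ O) :
    ∃ (s : Finset (StrongDual 𝕜 X)) (ε : ℝ), 0 < ε ∧
      ∀ z : X, (∀ f ∈ s, ‖f (z - x)‖ < ε) → toWeakSpace 𝕜 X z ∈ O := by
  have h1 : {w : WeakSpace 𝕜 X | w + toWeakSpace 𝕜 X x ∈ O} ∈ 𝓝 (0 : WeakSpace 𝕜 X) := by
    have hc : Continuous fun w : WeakSpace 𝕜 X => w + toWeakSpace 𝕜 X x :=
      continuous_id.add continuous_const
    exact (hO.preimage hc).mem_nhds (by simpa using hx)
  obtain ⟨U, hU, hUsub⟩ :=
    ((topDualPairing 𝕜 X).flip.hasBasis_weakBilin.mem_iff).1 h1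
  rw [SeminormFamily.basisSets_iff] at hU
  obtain ⟨s, r, hr, rfl⟩ := hU
  refine ⟨s, r, hr, fun z hz => ?_⟩
  have h2 : (z - x : X) ∈
      (s.sup (topDualPairing 𝕜 X).flip.toSeminormFamily).ball 0 r := by
    rw [Seminorm.mem_ball_zero]
    refine Seminorm.finset_sup_apply_lt hr ?_
    intro f hf
    exact hz f hf
  have h3 := hUsub h2
  have h4 : toWeakSpace 𝕜 X (z - x) + toWeakSpace 𝕜 X x ∈ O := h3
  rw [← map_add, sub_add_cancel] at h4
  exact h4

/-- The functionals of `X` are weakly continuous. -/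
lemma continuous_eval (f : StrongDual 𝕜 X) :
    Continuous fun w : WeakSpace 𝕜 X => f ((toWeakSpace 𝕜 X).symm w) :=
  WeakBilin.eval_continuous (topDualPairing 𝕜 X).flip f

end weak

section single

variable {X : Type*} [NormedAddCommGroup X] [NormedSpace ℝ X]

lemma sSup_ball (g : StrongDual ℝ X) : sSup (g '' Metric.closedBall (0 : X) 1) = ‖g‖ := by
  have hub : ∀ r ∈ g '' Metric.closedBall (0 : X) 1, r ≤ ‖g‖ := by
    rintro r ⟨x, hx, rfl⟩
    have hx1 : ‖x‖ ≤ 1 := by simpa using hx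
    calc g x ≤ |g x| := le_abs_self _
      _ = ‖g x‖ := rfl
      _ ≤ ‖g‖ * ‖x‖ := g.le_opNorm x
      _ ≤ ‖g‖ * 1 := by gcongr
      _ = ‖g‖ := mul_one _
  have hne : (g '' Metric.closedBall (0 : X) 1).Nonempty := ⟨g 0, 0, by simp, rfl⟩
  refine le_antisymm (csSup_le hne hub) ?_
  have hbdd : BddAbove (g '' Metric.closedBall (0 : X) 1) := ⟨_, hub⟩
  have h0 : 0 ≤ sSup (g '' Metric.closedBall (0 : X) 1) :=
    le_csSup hbdd ⟨0, by simp, by simp⟩
  rw [← ContinuousLinearMap.sSup_unitClosedBall_eq_norm]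
  refine csSup_le ⟨‖g 0‖, 0, by simp, rfl⟩ ?_
  rintro r ⟨x, hx, rfl⟩
  show |g x| ≤ _
  rcases abs_cases (g x) with ⟨h, _⟩ | ⟨h, _⟩
  · rw [h]; exact le_csSup hbdd ⟨x, hx, rfl⟩
  · rw [h]; exact le_csSup hbdd ⟨-x, by simpa using hx, by simp⟩

lemma mem_slice (g : StrongDual ℝ X) (α : ℝ) (x : X) :
    x ∈ slice (Metric.closedBall (0 : X) 1) g α ↔ ‖x‖ ≤ 1 ∧ ‖g‖ - α < g x := by
  rw [slice, mem_ofPred_eq, sSup_ball]
  simp

lemma slice_nonempty (g : StrongDual ℝ X) {α : ℝ} (hα : 0 < α) :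
    (slice (Metric.closedBall (0 : X) 1) g α).Nonempty := by
  have h : ‖g‖ - α < sSup (g '' Metric.closedBall (0 : X) 1) := by
    rw [sSup_ball]; linarith
  have hne : (g '' Metric.closedBall (0 : X) 1).Nonempty := ⟨g 0, 0, by simp, rfl⟩
  obtain ⟨_, ⟨x, hx, rfl⟩, h1⟩ := exists_lt_of_lt_csSup hne h
  exact ⟨x, (mem_slice g α x).2 ⟨by simpa using hx, h1⟩⟩

/-- Every slice of the unit ball of a nonzero space contains a unit vector. -/
lemma exists_unit [Nontrivial X] (g : StrongDual ℝ X) {α : ℝ} (hα : 0 < α) :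
    ∃ e ∈ slice (Metric.closedBall (0 : X) 1) g α, ‖e‖ = 1 := by
  obtain ⟨x, hx⟩ := slice_nonempty g hα
  rw [mem_slice] at hx
  obtain ⟨hx1, hx2⟩ := hx
  by_cases hx0 : x = 0
  · subst hx0
    obtain ⟨e, he⟩ := exists_norm_eq X (zero_le_one' ℝ)
    rcases le_total 0 (g e) with h0 | h0
    · exact ⟨e, (mem_slice g α e).2 ⟨he.le, hx2.trans_le (by simpa using h0)⟩, he⟩
    · refine ⟨-e, (mem_slice g α _).2 ⟨by rw [norm_neg]; exact he.le, hx2.trans_le ?_⟩, ?_⟩
      · simpa using h0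
      · rw [norm_neg]; exact he
  · have hxn : 0 < ‖x‖ := norm_pos_iff.2 hx0
    have hinv : 1 ≤ ‖x‖⁻¹ := (one_le_inv₀ hxn).2 hx1
    have hn : ‖‖x‖⁻¹ • x‖ = 1 := by
      rw [norm_smul, norm_inv, norm_norm, inv_mul_cancel₀ hxn.ne']
    rcases le_total 0 (g x) with h0 | h0
    · refine ⟨‖x‖⁻¹ • x, (mem_slice g α _).2 ⟨hn.le, hx2.trans_le ?_⟩, hn⟩
      rw [map_smul, smul_eq_mul]
      nlinarith
    · refine ⟨-(‖x‖⁻¹ • x), (mem_slice g α _).2 ⟨by rw [norm_neg]; exact hn.le, hx2.trans_le ?_⟩,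
        by rw [norm_neg]; exact hn⟩
      rw [map_neg, map_smul, smul_eq_mul]
      nlinarith

/-- The reformulation of `IsAPEP` for `0` in the unit ball. -/
lemma isAPEP_iff : IsAPEP (Metric.closedBall (0 : X) 1) 0 ↔
    ∀ (s : Finset (StrongDual ℝ X)) (ε : ℝ), 0 < ε → ∃ (g : StrongDual ℝ X) (α : ℝ), 0 < α ∧
      ∀ x ∈ slice (Metric.closedBall (0 : X) 1) g α, ∀ f ∈ s, |f x| < ε := by
  constructor
  · rintro ⟨-, h⟩ s ε hε
    set O : Set (WeakSpace ℝ X) :=
      ⋂ f ∈ s, {w | |f ((toWeakSpace ℝ X).symm w)| < ε} with hO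
    have hOopen : IsOpen O := by
      refine isOpen_biInter_finset fun f _ => ?_
      exact isOpen_lt (continuous_abs.comp (continuous_eval f)) continuous_const
    obtain ⟨g, α, hα, -, hsub⟩ := h _ ⟨O, hOopen, rfl⟩ (by
      refine ⟨by simp, ?_⟩
      simp only [hO, mem_preimage, mem_iInter, mem_ofPred_eq]
      intro f _
      simpa using hε)
    refine ⟨g, α, hα, fun x hx f hf => ?_⟩
    have := (hsub hx).2
    simp only [hO, mem_preimage, mem_iInter, mem_ofPred_eq] at this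
    simpa using this f hf
  · intro h
    refine ⟨by simp, ?_⟩
    rintro W ⟨O, hO, rfl⟩ ⟨-, h0⟩
    obtain ⟨s, ε, hε, hs⟩ := exists_basic O hO 0 h0
    obtain ⟨g, α, hα, hg⟩ := h s ε hε
    refine ⟨g, α, hα, slice_nonempty g hα, fun x hx => ⟨hx.1, hs x fun f hf => ?_⟩⟩
    rw [sub_zero]
    exact hg x hx f hf

end single

section sum

variable {I : Type*} {E : I → Type*} [∀ i, NormedAddCommGroup (E i)] [∀ i, NormedSpace ℝ (E i)]

omit [∀ i, NormedSpace ℝ (E i)] in
lemma summable_norm (z : lp E 1) : Summable fun i => ‖z i‖ := by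
  have := (lp.memℓp z).summable (by norm_num)
  simpa using this

omit [∀ i, NormedSpace ℝ (E i)] in
lemma norm_eq (z : lp E 1) : ‖z‖ = ∑' i, ‖z i‖ := by
  have := lp.norm_eq_tsum_rpow (E := E) (p := 1) (by norm_num) z
  simpa using this

/-- A bounded family of functionals defines a functional on the `ℓ₁`-sum. -/
lemma exists_functional [DecidableEq I] (f : ∀ i, StrongDual ℝ (E i)) (C : ℝ) (hC : ∀ i, ‖f i‖ ≤ C) :
    ∃ F : StrongDual ℝ (lp E 1), ∀ i (x : E i), F (lp.single 1 i x) = f i x := by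
  classical
  have hb : ∀ (z : lp E 1) i, ‖f i (z i)‖ ≤ C * ‖z i‖ := fun z i =>
    ((f i).le_opNorm (z i)).trans (mul_le_mul_of_nonneg_right (hC i) (norm_nonneg _))
  have hs : ∀ z : lp E 1, Summable fun i => f i (z i) := fun z =>
    Summable.of_norm_bounded ((summable_norm z).mul_left C) (hb z)
  let L : lp E 1 →ₗ[ℝ] ℝ :=
    { toFun := fun z => ∑' i, f i (z i)
      map_add' := fun x y => by
        rw [← (hs x).tsum_add (hs y)]
        refine tsum_congr fun i => ?_
        rw [lp.coeFn_add, Pi.add_apply, map_add]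
      map_smul' := fun c x => by
        rw [RingHom.id_apply, smul_eq_mul, ← tsum_mul_left]
        refine tsum_congr fun i => ?_
        rw [lp.coeFn_smul, Pi.smul_apply, map_smul, smul_eq_mul] }
  refine ⟨L.mkContinuous C fun z => ?_, fun i x => ?_⟩
  · show ‖∑' i, f i (z i)‖ ≤ C * ‖z‖
    rw [norm_eq, ← tsum_mul_left]
    exact tsum_of_norm_bounded ((summable_norm z).mul_left C).hasSum (hb z)
  · show ∑' j, f j (lp.single 1 i x j) = f i x
    rw [tsum_eq_single i, lp.single_apply_self]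
    intro j hj
    rw [lp.single_apply_ne _ _ _ hj, map_zero]

lemma le_of_single_le [DecidableEq I] (G : StrongDual ℝ (lp E 1)) (c : ℝ)
    (h : ∀ i (y : E i), ‖y‖ ≤ 1 → G (lp.single 1 i y) ≤ c) (z : lp E 1) : G z ≤ c * ‖z‖ := by
  classical
  have hy : ∀ i (y : E i), G (lp.single 1 i y) ≤ c * ‖y‖ := by
    intro i y
    by_cases hy0 : y = 0
    · subst hy0
      simp
    · have hyn : 0 < ‖y‖ := norm_pos_iff.2 hy0
      have h1 := h i (‖y‖⁻¹ • y) (by
        rw [norm_smul, norm_inv, norm_norm, inv_mul_cancel₀ hyn.ne'])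
      rw [lp.single_smul, map_smul, smul_eq_mul, inv_mul_le_iff₀ hyn] at h1
      linarith
  have hs : HasSum (fun i => G (lp.single 1 i (z i))) (G z) :=
    (lp.hasSum_single (by norm_num) z).mapL G
  rw [norm_eq, ← tsum_mul_left]
  exact hasSum_le (fun i => hy i (z i)) hs ((summable_norm z).mul_left c).hasSum

lemma criterion_of_isAPEP [Nonempty I] (h : IsAPEP (Metric.closedBall (0 : lp E 1) 1) 0) :
    Criterion E := by
  classical
  rintro n f ⟨C, hC⟩
  rw [isAPEP_iff] at h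
  choose F hF using fun k => exists_functional (f k) C (hC k)
  obtain ⟨G, α, hα, hG⟩ := h (Finset.univ.image F) 1 one_pos
  have hex : ∃ i, ∃ y : E i, ‖y‖ ≤ 1 ∧ ‖G‖ - α < G (lp.single 1 i y) := by
    by_contra hcon
    push Not at hcon
    have h0 : 0 ≤ ‖G‖ - α := by
      have := hcon (Classical.arbitrary I) 0 (by simp)
      simpa using this
    obtain ⟨z, hz⟩ := slice_nonempty G hα
    rw [mem_slice] at hz
    have h1 := le_of_single_le G _ (fun i y hy => hcon i y hy) z
    have h2 : (‖G‖ - α) * ‖z‖ ≤ (‖G‖ - α) * 1 := mul_le_mul_of_nonneg_left hz.1 h0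
    linarith [hz.2]
  obtain ⟨i, y, hy1, hy2⟩ := hex
  let g : StrongDual ℝ (E i) := G.comp (lp.singleContinuousLinearMap ℝ E 1 i)
  have hg : ∀ x, g x = G (lp.single 1 i x) := fun x => rfl
  have hgy : ‖G‖ - α < ‖g‖ := by
    calc ‖G‖ - α < g y := hy2
      _ ≤ ‖g y‖ := le_abs_self _
      _ ≤ ‖g‖ * ‖y‖ := g.le_opNorm y
      _ ≤ ‖g‖ * 1 := by gcongr
      _ = ‖g‖ := mul_one _
  refine ⟨i, g, α - (‖G‖ - ‖g‖), by linarith, slice_nonempty g (by linarith), fun x hx k => ?_⟩
  rw [mem_slice] at hx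
  have h1 := hG (lp.single 1 i x) ((mem_slice G α _).2 ⟨by
    rw [lp.norm_single one_pos]; exact hx.1, by rw [← hg]; linarith [hx.2]⟩) (F k)
    (Finset.mem_image_of_mem F (Finset.mem_univ k))
  rwa [hF] at h1

lemma isAPEP_of_criterion [∀ i, Nontrivial (E i)] (h : Criterion E) :
    IsAPEP (Metric.closedBall (0 : lp E 1) 1) 0 := by
  classical
  rw [isAPEP_iff]
  intro s ε hε
  obtain ⟨M, hM0, hM⟩ : ∃ M : ℝ, 0 < M ∧ ∀ f ∈ s, ‖f‖ ≤ M := by
    refine ⟨∑ f ∈ s, ‖f‖ + 1, ?_, fun f hf => ?_⟩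
    · have : 0 ≤ ∑ f ∈ s, ‖f‖ := Finset.sum_nonneg fun f _ => norm_nonneg f
      linarith
    · have := Finset.single_le_sum (f := fun f : StrongDual ℝ (lp E 1) => ‖f‖)
        (fun f _ => norm_nonneg f) hf
      linarith
  let fam : Fin s.card → ∀ i, StrongDual ℝ (E i) := fun k i =>
    (2 / ε) • ((s.equivFin.symm k).1.comp (lp.singleContinuousLinearMap ℝ E 1 i))
  have hfam : ∀ k i (x : E i), fam k i x = (2 / ε) * (s.equivFin.symm k).1 (lp.single 1 i x) :=
    fun k i x => rfl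
  obtain ⟨i, g, α, hα, -, hg⟩ := h s.card fam ⟨(2 / ε) * M, fun k i => by
    refine ContinuousLinearMap.opNorm_le_bound _ (by positivity) fun x => ?_
    rw [hfam, norm_mul, Real.norm_of_nonneg (by positivity : (0 : ℝ) ≤ 2 / ε), mul_assoc]
    refine mul_le_mul_of_nonneg_left ?_ (by positivity)
    refine ((s.equivFin.symm k).1.le_opNorm _).trans ?_
    rw [lp.norm_single one_pos]
    exact mul_le_mul_of_nonneg_right (hM _ (s.equivFin.symm k).2) (norm_nonneg _)⟩
  -- we may assume that `g` is not zero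
  obtain ⟨g, α, hg0, hα, hg⟩ : ∃ (g : StrongDual ℝ (E i)) (α : ℝ), g ≠ 0 ∧ 0 < α ∧
      ∀ x ∈ slice (Metric.closedBall (0 : E i) 1) g α, ∀ k, |fam k i x| < 1 := by
    by_cases hg0 : g = 0
    · obtain ⟨v, hv⟩ := exists_ne (0 : E i)
      obtain ⟨g', hg'1, -⟩ := exists_dual_vector ℝ v (norm_ne_zero_iff.2 hv)
      refine ⟨g', 1, ?_, one_pos, fun x hx => hg x ?_⟩
      · rintro rfl
        simp at hg'1
      · rw [mem_slice] at hx ⊢
        refine ⟨hx.1, ?_⟩
        rw [hg0]
        simpa using hα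
    · exact ⟨g, α, hg0, hα, hg⟩
  have hgn : 0 < ‖g‖ := norm_pos_iff.2 hg0
  let G : StrongDual ℝ (lp E 1) := g.comp (lp.evalCLM ℝ E 1 i)
  have hG : ∀ z : lp E 1, G z = g (z i) := fun z => rfl
  have hGg : ‖g‖ ≤ ‖G‖ := by
    refine ContinuousLinearMap.opNorm_le_bound _ (norm_nonneg _) fun x => ?_
    have := G.le_opNorm (lp.single 1 i x)
    rwa [hG, lp.single_apply_self, lp.norm_single one_pos] at this
  set β : ℝ := min α (ε * ‖g‖ / (2 * M)) with hβ
  have hβ0 : 0 < β := lt_min hα (by positivity)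
  refine ⟨G, β, hβ0, fun z hz f hf => ?_⟩
  rw [mem_slice, hG] at hz
  obtain ⟨hz1, hz2⟩ := hz
  have hzi : ‖z i‖ ≤ 1 := (lp.norm_apply_le_norm one_ne_zero z i).trans hz1
  have hzg : ‖g‖ - β < g (z i) := by linarith
  have hsl : z i ∈ slice (Metric.closedBall (0 : E i) 1) g α :=
    (mem_slice g α _).2 ⟨hzi, by linarith [min_le_left α (ε * ‖g‖ / (2 * M))]⟩
  have h1 : |f (lp.single 1 i (z i))| < ε / 2 := by
    have := hg _ hsl (s.equivFin ⟨f, hf⟩)
    rw [hfam, Equiv.symm_apply_apply, abs_mul, abs_of_pos (by positivity : (0 : ℝ) < 2 / ε)] at this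
    have h2 : |f (lp.single 1 i (z i))| < 1 / (2 / ε) := by
      rw [lt_div_iff₀ (by positivity)]
      linarith
    rwa [one_div_div] at h2
  have hcompl : ‖z - lp.single 1 i (z i)‖ = ‖z‖ - ‖z i‖ := by
    have := lp.norm_compl_sum_single (E := E) (p := 1) (by norm_num) z {i}
    simpa using this
  have h3 : ‖g‖ * (1 - ‖z i‖) < β := by
    have : g (z i) ≤ ‖g‖ * ‖z i‖ := (le_abs_self _).trans (g.le_opNorm _)
    nlinarith
  have h4 : M * (1 - ‖z i‖) < ε / 2 := by
    have h5 : ‖g‖ * (1 - ‖z i‖) < ε * ‖g‖ / (2 * M) := h3.trans_le (min_le_right _ _)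
    have h6 : 1 - ‖z i‖ < ε / (2 * M) := by
      have h7 : ε * ‖g‖ / (2 * M) = ‖g‖ * (ε / (2 * M)) := by ring
      rw [h7] at h5
      exact lt_of_mul_lt_mul_left h5 hgn.le
    rw [lt_div_iff₀ (by positivity)] at h6
    linarith
  calc |f z| = |f (lp.single 1 i (z i)) + f (z - lp.single 1 i (z i))| := by
        rw [← map_add]; congr 2; abel
    _ ≤ |f (lp.single 1 i (z i))| + |f (z - lp.single 1 i (z i))| := abs_add_le _ _
    _ < ε / 2 + ε / 2 := by
        refine add_lt_add_of_lt_of_le h1 ?_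
        calc |f (z - lp.single 1 i (z i))| ≤ ‖f‖ * ‖z - lp.single 1 i (z i)‖ := f.le_opNorm _
          _ ≤ M * (1 - ‖z i‖) := by
              rw [hcompl]
              exact mul_le_mul (hM f hf) (by linarith)
                (sub_nonneg.2 (lp.norm_apply_le_norm one_ne_zero z i)) hM0.le
          _ ≤ ε / 2 := h4.le
    _ = ε := by ring

/-- If `0` is an almost preserved extreme point for one summand, then the criterion holds. -/
lemma criterion_of_summand (i : I) (h : IsAPEP (Metric.closedBall (0 : E i) 1) 0) :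
    Criterion E := by
  classical
  rintro n f -
  rw [isAPEP_iff] at h
  obtain ⟨g, α, hα, hg⟩ := h (Finset.univ.image fun k => f k i) 1 one_pos
  exact ⟨i, g, α, hα, slice_nonempty g hα, fun x hx k =>
    hg x hx _ (Finset.mem_image_of_mem _ (Finset.mem_univ k))⟩

lemma criterion_finite [Finite I] (h : Criterion E) :
    ∃ i, IsAPEP (Metric.closedBall (0 : E i) 1) 0 := by
  classical
  have := Fintype.ofFinite I
  by_contra hcon
  push Not at hcon
  simp only [isAPEP_iff] at hcon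
  push Not at hcon
  choose s ε hε hs using hcon
  let κ := Σ i, s i
  let e : κ ≃ Fin (Fintype.card κ) := Fintype.equivFin κ
  let f : Fin (Fintype.card κ) → ∀ i, StrongDual ℝ (E i) := fun k =>
    Pi.single (e.symm k).1 ((ε (e.symm k).1)⁻¹ • (e.symm k).2.1)
  obtain ⟨i, g, α, hα, -, hg⟩ := h _ f ⟨∑ k, ∑ i, ‖f k i‖, fun k i => by
    refine le_trans ?_ (Finset.single_le_sum (f := fun k => ∑ i, ‖f k i‖)
      (fun k _ => Finset.sum_nonneg fun i _ => norm_nonneg _) (Finset.mem_univ k))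
    exact Finset.single_le_sum (f := fun i => ‖f k i‖) (fun i _ => norm_nonneg _)
      (Finset.mem_univ i)⟩
  obtain ⟨x, hx, φ, hφ, hφx⟩ := hs i g α hα
  have h1 := hg x hx (e ⟨i, φ, hφ⟩)
  have h2 : f (e ⟨i, φ, hφ⟩) i = (ε i)⁻¹ • φ := by
    simp only [f]
    rw [Equiv.symm_apply_apply]
    exact Pi.single_eq_same _ _
  rw [h2, smul_apply, smul_eq_mul, abs_mul,
    abs_of_pos (inv_pos.2 (hε i)), inv_mul_lt_iff₀ (hε i)] at h1
  linarith

end sum

section dimension

/-- In a finite-dimensional space of dimension `n` there are `5 ^ n` functionals of norm at most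
`2` one of which is larger than `1` at any given unit vector. -/
lemma exists_functionals (V : Type*) [NormedAddCommGroup V] [NormedSpace ℝ V]
    [FiniteDimensional ℝ V] :
    ∃ t : Finset (StrongDual ℝ V), t.card ≤ 5 ^ Module.finrank ℝ V ∧ (∀ c ∈ t, ‖c‖ ≤ 2) ∧
      ∀ x : V, ‖x‖ = 1 → ∃ c ∈ t, 1 < c x := by
  classical
  have hfr : Module.finrank ℝ (StrongDual ℝ V) = Module.finrank ℝ V := by
    rw [← (LinearMap.toContinuousLinearMap : (V →ₗ[ℝ] ℝ) ≃ₗ[ℝ] V →L[ℝ] ℝ).finrank_eq]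
    exact Subspace.dual_finrank_eq
  let P : Finset (StrongDual ℝ V) → Prop := fun t =>
    (∀ c ∈ t, ‖c‖ ≤ 2) ∧ ∀ c ∈ t, ∀ d ∈ t, c ≠ d → 1 ≤ ‖c - d‖
  have hP : ∀ t, P t → t.card ≤ 5 ^ Module.finrank ℝ V := by
    intro t ht
    rw [← hfr]
    exact Besicovitch.card_le_of_separated t ht.1 ht.2
  let S : Set ℕ := {m | ∃ t, P t ∧ t.card = m}
  have hS : BddAbove S := ⟨5 ^ Module.finrank ℝ V, by rintro m ⟨t, ht, rfl⟩; exact hP t ht⟩
  have hSne : S.Nonempty := ⟨0, ∅, ⟨by simp, by simp⟩, rfl⟩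
  obtain ⟨t, ht, htc⟩ := Nat.sSup_mem hSne hS
  refine ⟨t, hP t ht, ht.1, fun x hx => ?_⟩
  have hx0 : x ≠ 0 := by
    rintro rfl
    simp at hx
  obtain ⟨φ, hφ1, hφ2⟩ := exists_dual_vector ℝ x (norm_ne_zero_iff.2 hx0)
  have hex : ∃ c ∈ t, ‖(2 : ℝ) • φ - c‖ < 1 := by
    by_contra hcon
    push Not at hcon
    have hφt : (2 : ℝ) • φ ∉ t := by
      intro hmem
      have := hcon _ hmem
      rw [sub_self, norm_zero] at this
      linarith
    have hPi : P (insert ((2 : ℝ) • φ) t) := by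
      constructor
      · intro c hc
        rcases Finset.mem_insert.1 hc with rfl | hc
        · rw [norm_smul, hφ1]; simp
        · exact ht.1 c hc
      · intro c hc d hd hcd
        rcases Finset.mem_insert.1 hc with rfl | hc
        · rcases Finset.mem_insert.1 hd with rfl | hd
          · exact absurd rfl hcd
          · exact hcon d hd
        · rcases Finset.mem_insert.1 hd with rfl | hd
          · rw [norm_sub_rev]; exact hcon c hc
          · exact ht.2 c hc d hd hcd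
    have h1 : (insert ((2 : ℝ) • φ) t).card ≤ sSup S := le_csSup hS ⟨_, hPi, rfl⟩
    rw [Finset.card_insert_of_notMem hφt, ← htc] at h1
    omega
  obtain ⟨c, hc, hcφ⟩ := hex
  refine ⟨c, hc, ?_⟩
  have h1 : ((2 : ℝ) • φ - c) x < 1 := by
    calc ((2 : ℝ) • φ - c) x ≤ ‖((2 : ℝ) • φ - c) x‖ := le_abs_self _
      _ ≤ ‖(2 : ℝ) • φ - c‖ * ‖x‖ := ContinuousLinearMap.le_opNorm _ _
      _ < 1 := by rw [hx, mul_one]; exact hcφ
  rw [sub_apply, smul_apply, hφ2, hx] at h1
  simp only [smul_eq_mul] at h1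
  norm_num at h1
  linarith

/-- `0` is not an almost preserved extreme point of the ball of a nonzero finite-dimensional
space. -/
lemma not_isAPEP_of_finiteDimensional (V : Type*) [NormedAddCommGroup V] [NormedSpace ℝ V]
    [FiniteDimensional ℝ V] [Nontrivial V] : ¬ IsAPEP (Metric.closedBall (0 : V) 1) 0 := by
  rw [isAPEP_iff]
  intro h
  obtain ⟨t, -, -, ht⟩ := exists_functionals V
  obtain ⟨g, α, hα, hg⟩ := h t 1 one_pos
  obtain ⟨e, he, he1⟩ := exists_unit g hα
  obtain ⟨c, hc, hce⟩ := ht e he1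
  have := (le_abs_self _).trans_lt (hg e he c hc)
  linarith

variable {I : Type*} {E : I → Type*} [∀ i, NormedAddCommGroup (E i)] [∀ i, NormedSpace ℝ (E i)]

lemma not_criterion [∀ i, Nontrivial (E i)] (n : ℕ)
    (hE : ∀ i, FiniteDimensional ℝ (E i) ∧ Module.finrank ℝ (E i) ≤ n) : ¬ Criterion E := by
  classical
  intro h
  have hf : ∀ i, ∃ t : Finset (StrongDual ℝ (E i)), t.card ≤ 5 ^ n ∧ (∀ c ∈ t, ‖c‖ ≤ 2) ∧
      ∀ x : E i, ‖x‖ = 1 → ∃ c ∈ t, 1 < c x := by
    intro i
    have := (hE i).1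
    obtain ⟨t, h1, h2⟩ := exists_functionals (E i)
    exact ⟨t, h1.trans (Nat.pow_le_pow_right (by norm_num) (hE i).2), h2⟩
  choose t ht1 ht2 ht3 using hf
  let f : Fin (5 ^ n) → ∀ i, StrongDual ℝ (E i) := fun k i =>
    if hk : (k : ℕ) < (t i).card then ((t i).equivFin.symm ⟨k, hk⟩).1 else 0
  obtain ⟨i, g, α, hα, -, hg⟩ := h _ f ⟨2, fun k i => by
    simp only [f]
    split_ifs with hk
    · exact ht2 i _ ((t i).equivFin.symm ⟨k, hk⟩).2
    · simp⟩
  obtain ⟨e, he, he1⟩ := exists_unit g hα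
  obtain ⟨c, hc, hce⟩ := ht3 i e he1
  have hlt : (((t i).equivFin ⟨c, hc⟩ : Fin (t i).card) : ℕ) < 5 ^ n :=
    ((t i).equivFin ⟨c, hc⟩).2.trans_le (ht1 i)
  have h1 := hg e he ⟨((t i).equivFin ⟨c, hc⟩ : Fin (t i).card), hlt⟩
  have h2 : f ⟨((t i).equivFin ⟨c, hc⟩ : Fin (t i).card), hlt⟩ i = c := by
    simp only [f]
    rw [dif_pos ((t i).equivFin ⟨c, hc⟩).2]
    simp
  rw [h2] at h1
  have := (le_abs_self _).trans_lt h1
  linarith

end dimension

section hilbert

variable {I : Type*} {E : I → Type*} [∀ i, NormedAddCommGroup (E i)]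
  [∀ i, InnerProductSpace ℝ (E i)]

lemma criterion_of_rank (h : ∀ n : ℕ, ∃ i, (n : Cardinal) < Module.rank ℝ (E i)) :
    Criterion E := by
  classical
  rintro n f ⟨C, hC⟩
  obtain ⟨i, hi⟩ := h n
  obtain ⟨x, hx0, hxf⟩ : ∃ x : E i, x ≠ 0 ∧ ∀ k, f k i x = 0 := by
    let L : E i →ₗ[ℝ] (Fin n → ℝ) := LinearMap.pi fun k => (f k i).toLinearMap
    have hker : LinearMap.ker L ≠ ⊥ := by
      intro h0
      have h1 := LinearMap.lift_rank_le_of_injective L (LinearMap.ker_eq_bot.1 h0)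
      rw [rank_fun', Cardinal.lift_natCast, Fintype.card_fin] at h1
      have h2 : Cardinal.lift.{0} (Module.rank ℝ (E i)) ≤ n := h1
      rw [Cardinal.lift_uzero] at h2
      exact absurd h2 (not_le.2 hi)
    obtain ⟨x, hx, hx0⟩ := (Submodule.ne_bot_iff _).1 hker
    refine ⟨x, hx0, fun k => ?_⟩
    exact congrFun (LinearMap.mem_ker.1 hx) k
  obtain ⟨e, he1, hes⟩ : ∃ e : E i, ‖e‖ = 1 ∧ ∀ k, f k i e = 0 := by
    have hxn : 0 < ‖x‖ := norm_pos_iff.2 hx0
    refine ⟨‖x‖⁻¹ • x, ?_, fun k => ?_⟩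
    · rw [norm_smul, norm_inv, norm_norm, inv_mul_cancel₀ hxn.ne']
    · rw [map_smul, hxf k, smul_zero]
  set M : ℝ := |C| + 1 with hM
  have hM0 : 0 < M := by positivity
  set δ : ℝ := 1 / (2 * M) with hδ
  have hδ0 : 0 < δ := by positivity
  refine ⟨i, innerSL ℝ e, δ ^ 2 / 2, by positivity, slice_nonempty _ (by positivity),
    fun z hz k => ?_⟩
  rw [mem_slice] at hz
  obtain ⟨hz1, hz2⟩ := hz
  rw [innerSL_apply_norm, he1, innerSL_apply_apply] at hz2
  have hdist : ‖z - e‖ ≤ δ := by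
    have h1 : ‖z - e‖ ^ 2 ≤ δ ^ 2 := by
      rw [@norm_sub_sq_real, he1, real_inner_comm]
      have : ‖z‖ ^ 2 ≤ 1 := by
        have := norm_nonneg z
        nlinarith
      linarith
    exact (abs_le_of_sq_le_sq' h1 hδ0.le).2
  have h1 : f k i z = f k i (z - e) := by rw [map_sub, hes k, sub_zero]
  rw [h1]
  calc |f k i (z - e)| ≤ ‖f k i‖ * ‖z - e‖ := (f k i).le_opNorm _
    _ ≤ M * δ := by
        refine mul_le_mul ?_ hdist (norm_nonneg _) hM0.le
        exact (hC k i).trans (by rw [hM]; linarith [le_abs_self C])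
    _ = 1 / 2 := by rw [hδ]; field_simp
    _ < 1 := by norm_num

lemma criterion_hilbert [∀ i, Nontrivial (E i)] :
    Criterion E ↔ ∀ n : ℕ, ∃ i, (n : Cardinal) < Module.rank ℝ (E i) := by
  refine ⟨fun h => ?_, criterion_of_rank⟩
  by_contra hcon
  push Not at hcon
  obtain ⟨n, hn⟩ := hcon
  refine not_criterion n (fun i => ?_) h
  have hfd : FiniteDimensional ℝ (E i) :=
    Module.rank_lt_aleph0_iff.1 ((hn i).trans_lt (Cardinal.natCast_lt_aleph0))
  refine ⟨hfd, ?_⟩
  have := hn i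
  rw [← Module.finrank_eq_rank] at this
  exact_mod_cast this

end hilbert

/-- `0` is an almost preserved extreme point of the unit ball of `X`. -/
def ZeroAPEP (X : Type*) [NormedAddCommGroup X] [NormedSpace ℝ X] : Prop :=
  IsAPEP (Metric.closedBall (0 : X) 1) 0

/-- `0` is an almost preserved extreme point of the unit ball of the `ℓ₁`-sum of the spaces
`E i`. -/
def ZeroAPEPSum {I : Type*} (E : I → Type*) [∀ i, NormedAddCommGroup (E i)]
    [∀ i, NormedSpace ℝ (E i)] : Prop :=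
  IsAPEP (Metric.closedBall (0 : lp E 1) 1) 0

/-- The inner product spaces `E i` have unbounded dimensions. -/
def UnboundedDim {I : Type*} (E : I → Type*) [∀ i, NormedAddCommGroup (E i)]
    [∀ i, InnerProductSpace ℝ (E i)] : Prop :=
  ∀ n : ℕ, ∃ i, (n : Cardinal) < Module.rank ℝ (E i)

/-- The statement for families of inner product spaces. -/
def HilbertStatement : Prop :=
  ∀ (I : Type u) [Nonempty I] (E : I → Type v) [∀ i, NormedAddCommGroup (E i)]
    [∀ i, InnerProductSpace ℝ (E i)] [∀ i, Nontrivial (E i)],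
    ZeroAPEPSum E ↔ UnboundedDim E

/-- The counterexamples over all infinite index sets. -/
def InfiniteStatement : Prop :=
  ∀ (I : Type u) [Infinite I],
    ∃ (E : I → Type) (_ : ∀ i, NormedAddCommGroup (E i)) (_ : ∀ i, InnerProductSpace ℝ (E i)),
      (∀ i, FiniteDimensional ℝ (E i)) ∧ (∀ i, CompleteSpace (E i)) ∧ (∀ i, Nontrivial (E i)) ∧
      ZeroAPEPSum E ∧ ∀ i, ¬ ZeroAPEP (E i)

/-- **Main theorem.** Let `(E i)_{i ∈ I}` be a family of nonzero real normed spaces and let `X` be its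
`ℓ₁`-sum.
(1) If `I` is nonempty, then `0` is an almost preserved extreme point (APEP) of the unit ball of `X`
if and only if for any finitely many uniformly bounded families of functionals `(f k i)_i` there are
`i ∈ I` and a nonempty slice of the unit ball of `E i` on which all `|f k i| < 1`.
(2) If `I` is finite and nonempty, then `0` is an APEP of the ball of `X` if and only if it is an
APEP of the ball of some summand.
(3) If the dimensions of the `E i` are bounded by some `n`, then `0` is not an APEP of the ball of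
`X`.
(4) If the `E i` are inner product spaces, then `0` is an APEP of the ball of `X` if and only if the
dimensions are unbounded.
(5) For every infinite `I` there are finite-dimensional Hilbert spaces `E i` such that `0` is an
APEP of the ball of `X` but of the ball of no `E i`. -/
theorem result :
    (∀ (I : Type u) [Nonempty I] (E : I → Type v) [∀ i, NormedAddCommGroup (E i)]
        [∀ i, NormedSpace ℝ (E i)] [∀ i, Nontrivial (E i)],
      (ZeroAPEPSum E ↔ Criterion E) ∧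
      (Finite I → (ZeroAPEPSum E ↔ ∃ i, ZeroAPEP (E i))) ∧
      (∀ n : ℕ, (∀ i, FiniteDimensional ℝ (E i) ∧ Module.finrank ℝ (E i) ≤ n) →
        ¬ ZeroAPEPSum E)) ∧
    HilbertStatement.{u, v} ∧ InfiniteStatement.{u} := by
  refine ⟨fun I _ E _ _ _ => ⟨⟨criterion_of_isAPEP, isAPEP_of_criterion⟩, fun _ => ⟨fun h => ?_,
    fun ⟨i, hi⟩ => ?_⟩, fun n hn h => ?_⟩, fun I _ E _ _ _ => ⟨fun h => ?_, fun h => ?_⟩,
    fun I _ => ?_⟩
  · exact criterion_finite (criterion_of_isAPEP h)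
  · exact isAPEP_of_criterion (criterion_of_summand i hi)
  · exact not_criterion n hn (criterion_of_isAPEP h)
  · exact criterion_hilbert.1 (criterion_of_isAPEP h)
  · exact isAPEP_of_criterion (criterion_of_rank h)
  · classical
    obtain ⟨d, hd⟩ : ∃ d : I → ℕ, ∀ n : ℕ, ∃ i, n ≤ d i := by
      refine ⟨Function.invFun (Infinite.natEmbedding I), fun n => ⟨Infinite.natEmbedding I n, ?_⟩⟩
      rw [Function.leftInverse_invFun (Infinite.natEmbedding I).injective n]
    refine ⟨fun i => EuclideanSpace ℝ (Fin (d i + 1)), inferInstance, inferInstance,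
      fun i => inferInstance, fun i => inferInstance, fun i => inferInstance, ?_,
      fun i => not_isAPEP_of_finiteDimensional _⟩
    refine isAPEP_of_criterion (criterion_of_rank fun n => ?_)
    obtain ⟨i, hi⟩ := hd n
    refine ⟨i, ?_⟩
    rw [← Module.finrank_eq_rank, finrank_euclideanSpace, Fintype.card_fin]
    exact_mod_cast Nat.lt_succ_of_le hi

end Pool.Agent.Results.MP_c12391_an.ExactCriterion
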